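import Pool.Agent.J6H1.CG.FIN
import Pool.Agent.J6H1.CG.DEC
import Pool.Agent.J6H1.CG.LOW
import Pool.Agent.J6H1.CG.HIGH
import Pool.Agent.J6H1.CG.COMB
import Pool.Agent.J6H1.CG.PIG
import Pool.Agent.J6H1.CG.QLO

/-!
# The canonical genus and the Jones polynomials of the diagrams with a given shadow

The definitions are in `Pool.Agent.H832R2.JR.Defs`: `GaussWord N` (the shadow of a knot diagram
with `N` crossings, planar or not, given by the order in which the crossings are passed),
`loops G s` (the number of closed curves of the state `s`; `s c = true` is the oriented smoothing at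
the crossing `c`), `fPoly G w` (the normalised Kauffman bracket, a state sum over all `2^N` states, of
the diagram with shadow `G` and crossing signs `w`) and `IsMatching` (disjoint pairs of crossing
chords of the Gauss diagram).

Seifert's algorithm joins `s` disks by `N` bands, `s` the number of Seifert circles.  The surface has
one boundary component and Euler characteristic `s - N`, so its genus is `(N + 1 - s) / 2`.  It
depends on the shadow only, and it is the genus of the alternating diagram if the shadow is planar and
reduced.
-/

set_option autoImplicit false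

namespace Pool.Agent.Results.MP_7bc610_gt.CanonicalGenus

open Pool.Agent.H832R2.JR LaurentPolynomial

/-- the number of Seifert circles: the closed curves that arise if all crossings are smoothed in the
oriented way (one circle if there is no crossing) -/
noncomputable def seifertCircles {N : ℕ} (G : GaussWord N) : ℕ := max 1 (loops G fun _ => true)

/-- the genus of the surface obtained by Seifert's algorithm -/
noncomputable def genus {N : ℕ} (G : GaussWord N) : ℝ := ((N : ℝ) + 1 - seifertCircles G) / 2

theorem genus_eq {N : ℕ} (G : GaussWord N) (hN : 0 < N) : genus G = Pool.Agent.J6H1.CG.FIN.gen G := by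
  have h : 1 ≤ loops G fun _ => true := by
    rw [loops_eq]
    exact one_le_L G _ ⟨0, hN⟩
  unfold genus seifertCircles Pool.Agent.J6H1.CG.FIN.gen
  rw [max_eq_right h]

theorem genus_zero (G : GaussWord 0) : genus G = 0 := by
  have h := Pool.Agent.J6H1.CG.GEN.loops_le G
  unfold genus seifertCircles
  rw [max_eq_left h]
  norm_num

/-- **The canonical genus and the Jones polynomial.**  There is a constant `C` such that for every
shadow `G` with `N` crossings, of canonical genus `g`, and every Laurent polynomial `F` (for instance
`F = 1`):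

(1) `0 ≤ g`, and there are at least `g / 2` pairwise disjoint pairs of crossing chords;

(2) if there are `m` pairwise disjoint pairs of crossing chords, then at most the proportion
`C √(log (2 + m)) m^(-1/4)` of the `2^N` choices of the crossings give a diagram with normalised
Kauffman bracket `F`;

(3) at most the proportion `C √(log (2 + g)) (1 + g)^(-1/4)` of the `2^N` choices of the crossings
give a diagram with normalised Kauffman bracket `F`. -/
theorem result : ∃ C : ℝ, 0 < C ∧ ∀ (N : ℕ) (G : GaussWord N) (F : ℤ[T;T⁻¹]),
    (0 ≤ genus G ∧ ∃ (m : ℕ) (u v : Fin m → Fin N), IsMatching G u v ∧ genus G ≤ 2 * m) ∧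
    (∀ (m : ℕ) (u v : Fin m → Fin N), IsMatching G u v →
      (Nat.card {w : Fin N → Bool // fPoly G w = F} : ℝ) * (m : ℝ) ^ (1 / 4 : ℝ) ≤
        C * √(Real.log (2 + m)) * 2 ^ N) ∧
    (Nat.card {w : Fin N → Bool // fPoly G w = F} : ℝ) * (1 + genus G) ^ (1 / 4 : ℝ) ≤
      C * √(Real.log (2 + genus G)) * 2 ^ N := by
  obtain ⟨C, hC, h⟩ := Pool.Agent.J6H1.CG.FIN.main (Pool.Agent.J6H1.CG.t_QLO Pool.Agent.J6H1.CG.t_DEC
    Pool.Agent.J6H1.CG.t_LOW Pool.Agent.J6H1.CG.t_HIGH Pool.Agent.J6H1.CG.t_COMB
    Pool.Agent.J6H1.CG.t_PIG)
  refine ⟨C + 2, by linarith, fun N G F => ⟨?_, fun m u v huv => ?_, ?_⟩⟩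
  · rcases Nat.eq_zero_or_pos N with rfl | hN
    · rw [genus_zero]
      exact ⟨le_rfl, 0, Fin.elim0, Fin.elim0, ⟨fun a => a.elim0, fun a => a.elim0,
        fun a => a.elim0, fun a => a.elim0⟩, by simp⟩
    · rw [genus_eq G hN]
      unfold Pool.Agent.J6H1.CG.FIN.gen
      constructor
      · have := Pool.Agent.J6H1.CG.GEN.loops_le G
        have h : ((loops G fun _ => true : ℕ) : ℝ) ≤ ((N + 1 : ℕ) : ℝ) := Nat.cast_le.2 this
        push_cast at h
        linarith
      · obtain ⟨m, u, v, huv, hm⟩ := Pool.Agent.J6H1.CG.GEN.genus_le_matching G hN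
        refine ⟨m, u, v, huv, ?_⟩
        have h : ((N + 1 : ℕ) : ℝ) ≤ ((loops G (fun _ => true) + 4 * m : ℕ) : ℝ) :=
          Nat.cast_le.2 hm
        push_cast at h
        linarith
  · refine ((h N G F).1 m u v huv).trans ?_
    gcongr
    linarith
  · rcases Nat.eq_zero_or_pos N with rfl | hN
    · rw [genus_zero]
      have h1 := Pool.Agent.J6H1.CG.FIN.card_triv G F
      have h2 : (1 / 2 : ℝ) ≤ √(Real.log 2) := by
        apply Real.le_sqrt_of_sq_le
        have := Real.log_two_gt_d9
        norm_num
        linarith
      rw [add_zero, add_zero, Real.one_rpow, mul_one]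
      refine h1.trans ?_
      rw [pow_zero, mul_one]
      nlinarith
    · rw [genus_eq G hN]
      refine ((h N G F).2).trans ?_
      gcongr
      linarith

end Pool.Agent.Results.MP_7bc610_gt.CanonicalGenus
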