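import Pool.Agent.J6H4.SC.Deg
import Pool.Agent.J6H4.SC.Ex

/-!
# The canonical genus and the signs of the crossings of a diagram with unit Jones polynomial

The definitions are in `Pool.Agent.H832R2.JR.Defs` (starting library): `GaussWord N` (the shadow of a
knot diagram with `N` crossings on a closed oriented surface of any genus, given by the order in which
the crossings are passed; `Half N` are the `4 N` ends of strands at the crossings), `loops G s` (the
number of closed curves of the state `s`; `s c = true` is the oriented smoothing at the crossing `c`),
`Joined G s` (two ends of strands are joined by a piece of a curve of the state `s`) and `fPoly G w`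
(the normalised Kauffman bracket `(-A³)^(-writhe) ⟨G, w⟩`, a Laurent polynomial in `A = T 1`, a state
sum in which all loops count equally, of the diagram with shadow `G` and crossing signs `w`, `true`
for positive).  The over/under information is not needed for `f`, so all virtual knot diagrams, all
knot diagrams on surfaces and all classical knot diagrams are covered.

The Seifert graph has the Seifert circles as vertices and the crossings as edges (a crossing may join
a Seifert circle to itself if the diagram is not planar).
-/

set_option autoImplicit false

namespace Pool.Agent.Results.MP_7bc610_gt.CrossingSigns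

open Pool.Agent.H832R2.JR LaurentPolynomial

variable {N : ℕ}

/-- the number of Seifert circles: the closed curves that arise if all crossings are smoothed in the
oriented way (one circle if there is no crossing) -/
noncomputable def seifertCircles (G : GaussWord N) : ℕ := max 1 (loops G fun _ => true)

/-- the genus of the surface obtained by Seifert's algorithm -/
noncomputable def genus (G : GaussWord N) : ℕ := (N + 1 - seifertCircles G) / 2

/-- the crossings of sign `e` (`true`: positive) -/
def crossings (w : Fin N → Bool) (e : Bool) : Finset (Fin N) := Finset.univ.filter fun c => w c = e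

/-- the ends `x` and `y` of strands are joined by a piece of a Seifert circle, or they are at the same
crossing, which is in `F` -/
def Linked (G : GaussWord N) (F : Finset (Fin N)) (x y : Half N) : Prop :=
  Joined G (fun _ => true) x y ∨ (x.1.1 = y.1.1 ∧ x.1.1 ∈ F)

/-- the number of the connected components of the graph whose vertices are the Seifert circles and
whose edges are the crossings in `F` (for `N = 0`, where there is no crossing, it is `0`) -/
noncomputable def components (G : GaussWord N) (F : Finset (Fin N)) : ℕ :=
  Nat.card (Quot (Linked G F))

/-- the number of independent cycles (the first Betti number, edges minus vertices plus components)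
of the graph whose vertices are the Seifert circles and whose edges are the crossings in `F` -/
noncomputable def betti (G : GaussWord N) (F : Finset (Fin N)) : ℕ :=
  F.card + components G F - components G ∅

/-- The parts (0), (1), (2) of `result`. -/
theorem bounds (G : GaussWord N) (w : Fin N → Bool) :
    (2 * genus G + seifertCircles G = N + 1 ∧
      ∀ F : Finset (Fin N), betti G F + components G ∅ = F.card + components G F) ∧
    (∀ j : ℤ, (fPoly G w).coeff j ≠ 0 →
      (4 * (genus G : ℤ) - 4 * ((crossings w true).card + betti G (crossings w true)) ≤ j ∧
        j ≤ -4 * (genus G : ℤ) + 4 * ((crossings w false).card + betti G (crossings w false))) ∧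
      (1 ≤ (crossings w true).card → 4 * (genus G : ℤ) - 8 * (crossings w true).card + 2 ≤ j) ∧
      (1 ≤ (crossings w false).card → j ≤ -4 * (genus G : ℤ) + 8 * (crossings w false).card - 2)) ∧
    (fPoly G w = 1 ∨ (fPoly G w).coeff 0 ≠ 0 →
      (genus G ≤ (crossings w false).card + betti G (crossings w false) ∧
        genus G ≤ (crossings w true).card + betti G (crossings w true)) ∧
      (1 ≤ genus G → genus G + 1 ≤ 2 * (crossings w false).card ∧
        genus G + 1 ≤ 2 * (crossings w true).card)) := by
  classical
  have hc : ∀ F, components G F = Pool.Agent.J6H4.SC.comps G F := fun F => rfl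
  have hb : ∀ F : Finset (Fin N), betti G F + components G ∅ = F.card + components G F := by
    intro F
    have h := (Pool.Agent.J6H4.SC.comps_subset G (Finset.empty_subset F)).2
    unfold betti
    rw [Finset.card_empty, add_zero] at h
    rw [hc, hc]
    omega
  have hg : 2 * genus G + seifertCircles G = N + 1 := by
    unfold genus seifertCircles
    have h1 := Pool.Agent.J6H4.SC.loops_le G
    rcases Nat.eq_zero_or_pos N with rfl | hN
    · rcases Nat.eq_zero_or_pos (loops G fun _ => true) with h | h <;> omega
    · have h2 := Pool.Agent.J6H4.SC.loops_parity G ⟨0, hN⟩
      have h3 : 1 ≤ loops G fun _ => true := by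
        rw [loops_eq]
        exact one_le_L G _ ⟨0, hN⟩
      rw [max_eq_right h3]
      omega
  have main : ∀ j : ℤ, (fPoly G w).coeff j ≠ 0 →
      (4 * (genus G : ℤ) - 4 * ((crossings w true).card + betti G (crossings w true)) ≤ j ∧
        j ≤ -4 * (genus G : ℤ) + 4 * ((crossings w false).card + betti G (crossings w false))) ∧
      (1 ≤ (crossings w true).card → 4 * (genus G : ℤ) - 8 * (crossings w true).card + 2 ≤ j) ∧
      (1 ≤ (crossings w false).card →
        j ≤ -4 * (genus G : ℤ) + 8 * (crossings w false).card - 2) := by
    intro j hj
    rcases Nat.eq_zero_or_pos N with rfl | hN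
    · have h0 : fPoly G w = 1 := by
        have hl : ∀ s : Fin 0 → Bool, loops G s - 1 = 0 := by
          intro s
          have : s = fun _ => true := Subsingleton.elim _ _
          rw [this]
          have := Pool.Agent.J6H4.SC.loops_le G
          omega
        unfold fPoly bracket writhe weight
        simp [hl]
      have hj0 : j = 0 := by
        by_contra hne
        apply hj
        rw [h0]
        have h1 := Pool.Agent.J6H4.SC.SIn.one j
        by_contra h2
        have := h1 h2
        omega
      have c1 : ∀ e, (crossings w e).card = 0 := by
        intro e
        have : crossings w e = ∅ := Finset.eq_empty_of_isEmpty _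
        rw [this, Finset.card_empty]
      have c2 : genus G = 0 := by
        have : 1 ≤ seifertCircles G := le_max_left _ _
        omega
      have b1 := hb (crossings w true)
      have b2 := hb (crossings w false)
      have hE : ∀ e, crossings w e = ∅ := fun e => Finset.eq_empty_of_isEmpty _
      rw [hE, Finset.card_empty] at b1 b2
      rw [c1, c1, c2, hj0, hE, hE]
      refine ⟨⟨?_, ?_⟩, ?_, ?_⟩ <;> omega
    · have hs : seifertCircles G = loops G fun _ => true := by
        unfold seifertCircles
        have h3 : 1 ≤ loops G fun _ => true := by
          rw [loops_eq]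
          exact one_le_L G _ ⟨0, hN⟩
        exact max_eq_right h3
      have b1 := hb (crossings w true)
      have b2 := hb (crossings w false)
      have ce : components G ∅ = loops G fun _ => true := Pool.Agent.J6H4.SC.comps_empty G
      have s1 := (Pool.Agent.J6H4.SC.comps_subset G
        (Finset.empty_subset (crossings w true))).1
      have s2 := (Pool.Agent.J6H4.SC.comps_subset G
        (Finset.empty_subset (crossings w false))).1
      rw [← hc, ← hc] at s1 s2
      obtain ⟨rp, hrp⟩ := Nat.exists_eq_add_of_le s1
      obtain ⟨rn, hrn⟩ := Nat.exists_eq_add_of_le s2
      have hsup := Pool.Agent.J6H4.SC.support G hN w rp rn (by rw [← ce, hrp]; rfl)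
        (by rw [← ce, hrn]; rfl) j hj
      have e1 : Pool.Agent.J6H4.SC.pos w = (crossings w true).card := rfl
      have e2 : Pool.Agent.J6H4.SC.neg w = (crossings w false).card := rfl
      rw [e1, e2] at hsup
      rw [hs] at hg
      have k1 : 4 * (rp : ℤ) ≤ Pool.Agent.J6H4.SC.loss (crossings w true).card rp := by
        unfold Pool.Agent.J6H4.SC.loss
        split_ifs with h0
        · omega
        · exact le_max_left _ _
      have k2 : 4 * (rn : ℤ) ≤ Pool.Agent.J6H4.SC.loss (crossings w false).card rn := by
        unfold Pool.Agent.J6H4.SC.loss
        split_ifs with h0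
        · omega
        · exact le_max_left _ _
      refine ⟨⟨?_, ?_⟩, ?_, ?_⟩
      · omega
      · omega
      · intro h1
        have k3 : 2 ≤ Pool.Agent.J6H4.SC.loss (crossings w true).card rp := by
          unfold Pool.Agent.J6H4.SC.loss
          rw [if_neg (by omega)]
          exact le_max_right _ _
        omega
      · intro h1
        have k3 : 2 ≤ Pool.Agent.J6H4.SC.loss (crossings w false).card rn := by
          unfold Pool.Agent.J6H4.SC.loss
          rw [if_neg (by omega)]
          exact le_max_right _ _
        omega
  refine ⟨⟨hg, hb⟩, main, ?_⟩
  intro h
  have h0 : (fPoly G w).coeff 0 ≠ 0 := by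
    rcases h with h | h
    · rw [h, AddMonoidAlgebra.one_def]
      simp
    · exact h
  obtain ⟨⟨m1, m2⟩, m3, m4⟩ := main 0 h0
  refine ⟨⟨by omega, by omega⟩, fun h1 => ⟨?_, ?_⟩⟩
  · rcases Nat.eq_zero_or_pos (crossings w false).card with h2 | h2
    · have hE : crossings w false = ∅ := Finset.card_eq_zero.1 h2
      have b2 := hb (crossings w false)
      rw [hE, Finset.card_empty] at b2
      rw [hE, Finset.card_empty] at m2
      omega
    · have := m4 h2
      omega
  · rcases Nat.eq_zero_or_pos (crossings w true).card with h2 | h2
    · have hE : crossings w true = ∅ := Finset.card_eq_zero.1 h2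
      have b2 := hb (crossings w true)
      rw [hE, Finset.card_empty] at b2
      rw [hE, Finset.card_empty] at m1
      omega
    · have := m3 h2
      omega

/-- **Signs of the crossings and unit Jones polynomial.** Let `D` be a knot diagram on a closed
oriented surface (or a virtual knot diagram) with `N` crossings, `s` Seifert circles, `n₊` positive
and `n₋` negative crossings and canonical genus `g`, and let `b₊`, `b₋` be the numbers of independent
cycles formed by the positive, respectively the negative crossings in the Seifert graph.

(0) `2 g + s = N + 1`, so that `g` is an integer, and `b₊`, `b₋` are the first Betti numbers.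

(1) If `A ^ j` occurs in the normalised bracket `f` of `D`, then `4 g - 4 (n₊ + b₊) ≤ j` and
`j ≤ - 4 g + 4 (n₋ + b₋)`; moreover `4 g - 8 n₊ + 2 ≤ j` if `n₊ ≥ 1`, and `j ≤ - 4 g + 8 n₋ - 2` if
`n₋ ≥ 1`.

(2) If `f = 1`, that is if `D` has unit Jones polynomial (or just if the constant term of `f` is not
zero), then `g ≤ n₋ + b₋` and `g ≤ n₊ + b₊`; and if `g ≥ 1` then `g ≤ 2 n₋ - 1` and `g ≤ 2 n₊ - 1`.

(3) There is a diagram with `8` crossings, unit Jones polynomial, `g = 3` and `n₋ = 2`: the bound
`g ≤ 2 n₋ - 1` is attained, and `g ≤ n₋` (which is true for classical diagrams of the unknot by the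
slice-Bennequin inequality) does not follow from `f = 1`. -/
theorem result :
    (∀ (N : ℕ) (G : GaussWord N) (w : Fin N → Bool),
      (2 * genus G + seifertCircles G = N + 1 ∧
        ∀ F : Finset (Fin N), betti G F + components G ∅ = F.card + components G F) ∧
      (∀ j : ℤ, (fPoly G w).coeff j ≠ 0 →
        (4 * (genus G : ℤ) - 4 * ((crossings w true).card + betti G (crossings w true)) ≤ j ∧
          j ≤ -4 * (genus G : ℤ) + 4 * ((crossings w false).card + betti G (crossings w false))) ∧
        (1 ≤ (crossings w true).card → 4 * (genus G : ℤ) - 8 * (crossings w true).card + 2 ≤ j) ∧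
        (1 ≤ (crossings w false).card →
          j ≤ -4 * (genus G : ℤ) + 8 * (crossings w false).card - 2)) ∧
      (fPoly G w = 1 ∨ (fPoly G w).coeff 0 ≠ 0 →
        (genus G ≤ (crossings w false).card + betti G (crossings w false) ∧
          genus G ≤ (crossings w true).card + betti G (crossings w true)) ∧
        (1 ≤ genus G → genus G + 1 ≤ 2 * (crossings w false).card ∧
          genus G + 1 ≤ 2 * (crossings w true).card))) ∧
    ∃ (G : GaussWord 8) (w : Fin 8 → Bool), fPoly G w = 1 ∧ genus G = 3 ∧
      (crossings w false).card = 2 := by
  refine ⟨fun N G w => bounds G w, Pool.Agent.J6H4.SC.Ex.G, Pool.Agent.J6H4.SC.Ex.w,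
    Pool.Agent.J6H4.SC.Ex.fPoly_eq, ?_, by decide⟩
  unfold genus seifertCircles
  rw [Pool.Agent.J6H4.SC.Ex.loops_eq_three]
  decide

end Pool.Agent.Results.MP_7bc610_gt.CrossingSigns
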