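import Pool.Agent.J6H1.RG.FIN
import Pool.Agent.J6H1.RG.TRIG
import Pool.Agent.J6H1.RG.BIL
import Pool.Agent.J6H1.RG.COS
import Pool.Agent.J6H1.RG.IT
import Pool.Agent.J6H1.RG.CLS
import Pool.Agent.J6H1.RG.SWP
import Pool.Agent.J6H1.RG.TOG
import Pool.Agent.J6H1.RG.CELL
import Pool.Agent.J6H1.RG.DATA
import Pool.Agent.J6H1.RG.CNT
import Pool.Agent.J6H1.RG.FR

/-!
# The Jones polynomial of a random Gauss diagram

The definitions are in `Pool.Agent.H832R2.JR.Defs`: `GaussWord N` is the type of all bijections from
the `2 N` passages `(c, b)` (the two passages of each of the `N` crossings `c`) onto the `2 N` places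
of the sequence in which the crossings are met along the knot; `w : Fin N → Bool` gives the signs of
the crossings; `fPoly G w` is the normalised Kauffman bracket (state sum over all `2^N` states).
Reading `(c, false)` as the overpass and `(c, true)` as the underpass of the crossing `c`, the pairs
`(G, w)` are exactly the signed Gauss codes with `N` labelled crossings, that is the virtual knot
diagrams with `N` classical crossings (with a base point and labelled crossings).
-/

set_option autoImplicit false

namespace Pool.Agent.Results.MP_7bc610_gt.RandomGaussDiagrams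

open Pool.Agent.H832R2.JR LaurentPolynomial

/-- **The Jones polynomial of a random virtual knot diagram.**  There is a constant `C` such that for
every `N ≥ 1` and every function `F` from the Gauss words with `N` letters to the Laurent polynomials
(for instance the constant function `1`), at most the proportion `C / N` of all pairs `(G, w)`
of a Gauss word `G` with `N` letters and signs `w` satisfies `fPoly G w = F G`. -/
theorem result : ∃ C : ℝ, ∀ N : ℕ, 1 ≤ N → ∀ F : GaussWord N → ℤ[T;T⁻¹],
    (Nat.card {p : GaussWord N × (Fin N → Bool) // fPoly p.1 p.2 = F p.1} : ℝ) ≤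
      C / N * Nat.card (GaussWord N × (Fin N → Bool)) := by
  obtain ⟨C, hC⟩ := Pool.Agent.J6H1.RG.main Pool.Agent.J6H1.RG.t_TRIG Pool.Agent.J6H1.RG.t_BIL
    Pool.Agent.J6H1.RG.t_COS Pool.Agent.J6H1.RG.t_IT Pool.Agent.J6H1.RG.t_CLS
    Pool.Agent.J6H1.RG.t_CELL Pool.Agent.J6H1.RG.t_DATA Pool.Agent.J6H1.RG.t_CNT
    Pool.Agent.J6H1.RG.t_FR Pool.Agent.J6H1.RG.t_SWP Pool.Agent.J6H1.RG.t_TOG
  refine ⟨C, fun N hN F => (hC N hN F).trans (le_of_eq ?_)⟩
  rw [Nat.card_prod, Nat.card_eq_fintype_card, Nat.card_eq_fintype_card,
    Pool.Agent.J6H1.RG.LOW.card_gw N, Fintype.card_fun, Fintype.card_bool, Fintype.card_fin]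
  push_cast
  ring

end Pool.Agent.Results.MP_7bc610_gt.RandomGaussDiagrams
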